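import Pool.Agent.Porous.LimMod

/-!
# The largest shear modulus at zero bulk modulus, for every phase and every period lattice
-/

open Porous Filter Topology
open scoped ENNReal

namespace Pool.Agent.Results.MP_ebc928_an.AllPhasesAllLattices

/-- For every elastic phase with bulk modulus `κ ∈ (0, ∞]` (`κ = ⊤` is the incompressible phase) and
shear modulus `μ > 0`, mixed with void, the largest effective shear modulus at zero effective bulk
modulus is `μ`: (1) for the closure of the moduli of exactly isotropic composites with any period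
lattice; (2) for every lattice basis `b` (`Complex.basisOneI` is `ℤ²`), for the closure of the moduli
of the isotropic limits of `b`-periodic composites, where `(0, μ)` is itself such a limit. (3) So it
is larger than the value `4 μ / 5` (`κ = ⊤`) and the value `1 / (5 / (4 μ) + 1 / (4 K))` (`κ = K`
finite) of the laminate polycrystals. -/
theorem result : ∀ (κ : ℝ≥0∞) (μ : ℝ), κ ≠ 0 → 0 < μ →
    (IsGreatest {m : ℝ | ((0 : ℝ), m) ∈ closure (IsoModuli κ μ)} μ ∧
      sSup {m : ℝ | ((0 : ℝ), m) ∈ closure (IsoModuli κ μ)} = μ) ∧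
    (∀ b : Module.Basis (Fin 2) ℝ ℂ, ((0 : ℝ), μ) ∈ LimModuli b κ μ ∧
      IsGreatest {m : ℝ | ((0 : ℝ), m) ∈ closure (LimModuli b κ μ)} μ ∧
      sSup {m : ℝ | ((0 : ℝ), m) ∈ closure (LimModuli b κ μ)} = μ) ∧
    4 * μ / 5 < μ ∧ ∀ K : ℝ, 0 < K → 1 / (5 / (4 * μ) + 1 / (4 * K)) < μ := by
  intro κ μ hκ hμ
  have h1 := isGreatest_Iso κ hκ μ hμ
  refine ⟨⟨h1, h1.csSup_eq⟩, fun b => ?_, by linarith, fun K hK => ?_⟩
  · have h2 := isGreatest_Lim b κ hκ μ hμ
    exact ⟨LimModuli_mem b κ hκ μ hμ, h2, h2.csSup_eq⟩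
  · have h3 : 0 < 1 / (4 * K) := by positivity
    have h4 : 0 < 5 / (4 * μ) := by positivity
    rw [div_lt_iff₀ (by linarith)]
    have h5 : μ * (5 / (4 * μ)) = 5 / 4 := by field_simp
    have h6 : 0 < μ * (1 / (4 * K)) := by positivity
    rw [mul_add, h5]
    linarith

end Pool.Agent.Results.MP_ebc928_an.AllPhasesAllLattices
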